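import Pool.Agent.V1193.WienerG

/-! MP_de3d06_an, Q1: `δ₀ = 1/2`, both for absolutely convergent power series in the disc (where
`C(δ)` is computed exactly) and for absolutely convergent Fourier series on the circle. -/

open scoped ENNReal

namespace Pool.Agent.Results.MP_de3d06_an.SharpThreshold

open Pool.Agent.V1193.WienerG

/-- The value of `C(δ)` for every `δ`, the value `δ₀ = 1/2`, and the same threshold for the
two-sided Wiener algebra. -/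
theorem result :
    (∀ δ : ℝ, 1/2 < δ → δ ≤ 1 → C δ = ENNReal.ofReal (1 / (2 * δ - 1))) ∧
    (∀ δ : ℝ, δ ≤ 1/2 → C δ = ⊤) ∧
    sInf {δ : ℝ | 0 < δ ∧ δ ≤ 1 ∧ C δ < ⊤} = 1/2 ∧
    (∀ δ : ℝ, 1/2 < δ → CT δ < ⊤) ∧
    (∀ δ : ℝ, δ ≤ 1/2 → CT δ = ⊤) ∧
    sInf {δ : ℝ | 0 < δ ∧ δ ≤ 1 ∧ CT δ < ⊤} = 1/2 :=
  ⟨C_eq, C_top, sInf_of (fun δ h1 h2 => by rw [C_eq δ h1 h2]; exact ENNReal.ofReal_lt_top) C_top,
    CT_fin, CT_top, sInf_of (fun δ h1 _ => CT_fin δ h1) CT_top⟩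

end Pool.Agent.Results.MP_de3d06_an.SharpThreshold
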